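import Pool.Agent.Run7.h521.MQ.FinB
import Pool.Agent.Run7.h521.MQ.ExC

/-!
# Morrey's problem for functions of the conformal part plus a quadratic form

Let `P` be a linear map from the real `2 × 2` matrices to `ℝ²` whose kernel contains no matrix of
rank one; for instance `P F = (F₀₀ + F₁₁, F₁₀ - F₀₁)`, the conformal part `∂u` of the gradient `F`
of `u`, whose kernel consists of the anticonformal matrices.  Let `Q` be a quadratic form which on
the kernel of `P` is a multiple of the determinant, `L` a linear form and `h` an arbitrary function.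
Every rank-one convex function `W(F) = h(P F) + Q(F) + L(F)` is quasiconvex, and there are such
functions which are not polyconvex.

Proof (files `Pool/Agent/Run7/h521/MQ/`): after a change of coordinates `F ↦ A F C` the kernel is
the plane of the anticonformal matrices.  The energy decreases along the heat flow.  Up to null
Lagrangians with constant coefficients the dissipation is a quadratic form in the gradient of
`z = P Du`, with coefficients depending on `z`: the anticonformal part is the Beurling transform of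
`z`, and `Δ` times the Beurling transform is a differential operator of second order.  Rank-one
convexity says that this form is nonnegative on matrices of rank one, by the S-lemma it becomes
nonnegative after the addition of `l(z) det Dz`, which has integral zero.
-/

set_option autoImplicit false

open Matrix

namespace Pool.Agent.Results.MP_515557_an.ConformalPartPlusQuadratic

/-- Convexity on the segments in rank-one directions. -/
def RankOneConvex (W : Matrix (Fin 2) (Fin 2) ℝ → ℝ) : Prop :=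
  ∀ F H : Matrix (Fin 2) (Fin 2) ℝ, H.rank = 1 → ∀ t : ℝ, 0 ≤ t → t ≤ 1 →
    W ((1 - t) • F + t • (F + H)) ≤ (1 - t) * W F + t * W (F + H)

/-- The inequality of quasiconvexity at all matrices, for all bounded open sets `Ω` and all
Lipschitz maps `ϑ` vanishing off `Ω`. -/
def Quasiconvex (W : Matrix (Fin 2) (Fin 2) ℝ → ℝ) : Prop :=
  ∀ F₀ : Matrix (Fin 2) (Fin 2) ℝ, ∀ Ω : Set (Fin 2 → ℝ),
    IsOpen Ω → Bornology.IsBounded Ω →
    ∀ ϑ : (Fin 2 → ℝ) → (Fin 2 → ℝ), (∃ K, LipschitzWith K ϑ) →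
      (∀ x, x ∉ Ω → ϑ x = 0) →
      W F₀ * (MeasureTheory.volume Ω).toReal ≤
        ∫ x in Ω, W (F₀ + LinearMap.toMatrix'
          ((fderiv ℝ ϑ x : (Fin 2 → ℝ) →L[ℝ] (Fin 2 → ℝ)) :
            (Fin 2 → ℝ) →ₗ[ℝ] (Fin 2 → ℝ)))

/-- `W(F) = P(F, det F)` for a convex function `P` with values in `ℝ ∪ {+∞}`. -/
def Polyconvex (W : Matrix (Fin 2) (Fin 2) ℝ → ℝ) : Prop :=
  ∃ P : Matrix (Fin 2) (Fin 2) ℝ × ℝ → EReal, (∀ z, P z ≠ ⊥) ∧
    (∀ z w : Matrix (Fin 2) (Fin 2) ℝ × ℝ, ∀ a b : ℝ, 0 ≤ a → 0 ≤ b → a + b = 1 →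
      P (a • z + b • w) ≤ (a : EReal) * P z + (b : EReal) * P w) ∧
    ∀ F, P (F, F.det) = (W F : EReal)

/-- the quadratic form `F₀₀² - F₁₁²` of the example -/
noncomputable def Qex : QuadraticForm ℝ (Matrix (Fin 2) (Fin 2) ℝ) :=
  QuadraticMap.linMulLin (Matrix.entryLinearMap ℝ ℝ (0 : Fin 2) (0 : Fin 2))
      (Matrix.entryLinearMap ℝ ℝ 0 0)
    - QuadraticMap.linMulLin (Matrix.entryLinearMap ℝ ℝ (1 : Fin 2) (1 : Fin 2))
      (Matrix.entryLinearMap ℝ ℝ 1 1)

theorem Qex_apply (F : Matrix (Fin 2) (Fin 2) ℝ) : Qex F = F 0 0 ^ 2 - F 1 1 ^ 2 := by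
  simp only [Qex, _root_.sub_apply, QuadraticMap.linMulLin_apply, Matrix.entryLinearMap_apply]
  ring

theorem ex_eq (F : Matrix (Fin 2) (Fin 2) ℝ) :
    (fun v : Fin 2 → ℝ => Run7.h521.MQ.hX (v 0 / 2) (v 1 / 2))
      ![F 0 0 + F 1 1, F 1 0 - F 0 1] + Qex F = Run7.h521.MQ.WX F := by
  rw [Qex_apply]
  rfl

/-- Let `P` be a linear map from the real `2 × 2` matrices to `ℝ²` whose kernel contains no matrix
of rank one, and let `Q` be a quadratic form equal to `c det` on the kernel.  Then every rank-one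
convex function `W(F) = h(P F) + Q(F) + L(F)`, with an arbitrary function `h` and a linear form
`L`, is quasiconvex.  There are a function `h` and a quadratic form `Q` vanishing on the matrices
`(a, b; b, -a)` such that `h(F₀₀ + F₁₁, F₁₀ - F₀₁) + Q(F)` is rank-one convex and not
polyconvex. -/
theorem result :
    (∀ (P : Matrix (Fin 2) (Fin 2) ℝ →ₗ[ℝ] (Fin 2 → ℝ)) (h : (Fin 2 → ℝ) → ℝ)
      (Q : QuadraticForm ℝ (Matrix (Fin 2) (Fin 2) ℝ)) (L : Matrix (Fin 2) (Fin 2) ℝ →ₗ[ℝ] ℝ)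
      (c : ℝ),
      (∀ H : Matrix (Fin 2) (Fin 2) ℝ, P H = 0 → H.rank ≠ 1) →
      (∀ H : Matrix (Fin 2) (Fin 2) ℝ, P H = 0 → Q H = c * H.det) →
      RankOneConvex (fun F => h (P F) + Q F + L F) →
        Quasiconvex (fun F => h (P F) + Q F + L F)) ∧
    ∃ (h : (Fin 2 → ℝ) → ℝ) (Q : QuadraticForm ℝ (Matrix (Fin 2) (Fin 2) ℝ)),
      (∀ a b : ℝ, Q !![a, b; b, -a] = 0) ∧
      RankOneConvex (fun F => h ![F 0 0 + F 1 1, F 1 0 - F 0 1] + Q F) ∧
        ¬ Polyconvex (fun F => h ![F 0 0 + F 1 1, F 1 0 - F 0 1] + Q F) := by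
  refine ⟨fun P h Q L c hP hQ hroc => Run7.h521.MQ.fin_plane P (fun H hH hd => ?_) h Q L c hQ hroc,
    fun v => Run7.h521.MQ.hX (v 0 / 2) (v 1 / 2), Qex, fun a b => ?_, ?_, ?_⟩
  · by_contra h0
    exact hP H hH (Pool.Agent.Helper188.Morrey.rank_eq_one_of_det h0 hd)
  · rw [Qex_apply]
    simp
  · have e : (fun F : Matrix (Fin 2) (Fin 2) ℝ =>
        (fun v : Fin 2 → ℝ => Run7.h521.MQ.hX (v 0 / 2) (v 1 / 2))
          ![F 0 0 + F 1 1, F 1 0 - F 0 1] + Qex F) = Run7.h521.MQ.WX := funext ex_eq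
    rw [e]
    intro F H hH t ht0 ht1
    exact Run7.h521.MQ.WX_roc F H
      (Pool.Agent.Helper188.Morrey.det_eq_zero_of_rank hH.le) t ht0 ht1
  · have e : (fun F : Matrix (Fin 2) (Fin 2) ℝ =>
        (fun v : Fin 2 → ℝ => Run7.h521.MQ.hX (v 0 / 2) (v 1 / 2))
          ![F 0 0 + F 1 1, F 1 0 - F 0 1] + Qex F) = Run7.h521.MQ.WX := funext ex_eq
    rw [e]
    exact Run7.h521.MQ.WX_not_poly

end Pool.Agent.Results.MP_515557_an.ConformalPartPlusQuadratic
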