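import Pool.Agent.Run7.h167.MC.Ex

/-!
# Morrey's problem for `W(F) = f(F₀₀) g(F₁₁) + a F₀₁² + b F₁₀² + c F₀₁ F₁₀ + L(F)`

`f` and `g` are arbitrary functions of the two diagonal entries of the real `2 × 2` matrix `F`, the
quadratic form of the two other entries and the linear form `L` are arbitrary.  Every rank-one
convex function of this form is quasiconvex.  The class contains all `f(F₀₀) g(F₁₁) + κ (F₀₁² +
F₁₀²)` with nonnegative convex Lipschitz functions `f, g` whose Lipschitz constants have a product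
`≤ 2 κ`, for example `F₀₀⁺ F₁₁⁺ + (F₀₁² + F₁₀²) / 2`, which is not polyconvex.

Proof (files `Pool/Agent/Run7/h167/MC/`): translates of Šverák's quasiconvex functions converge to
`V(F) = (F₀₁ - F₁₀)²/4 + (max(tr F, 0)²/4 - |F_anticonformal|²)₊`, and the translates of `V` give
the corners `(F₀₀ - x)₊ (F₁₁ - y)₊ + (F₀₁ - F₁₀)²/4`.  If `f, g` are nonnegative and Lipschitz then
`W` is supported from below at every matrix by a multiple of a corner plus a convex quadratic form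
(the slopes at infinity of `f` and `g` are bounded by rank-one convexity).  If `f` grows
superlinearly then rank-one convexity along lines far away forces `g` to be log-convex, and then `f`
as well, and the product is convex.  The other products which are convex in each variable are
bilinear or depend on one variable only.
-/

set_option autoImplicit false

open Matrix

namespace Pool.Agent.Results.MP_515557_an.DiagonalProducts

/-- Convexity on the segments in rank-one directions. -/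
def RankOneConvex (W : Matrix (Fin 2) (Fin 2) ℝ → ℝ) : Prop :=
  ∀ F H : Matrix (Fin 2) (Fin 2) ℝ, H.rank = 1 → ∀ t : ℝ, 0 ≤ t → t ≤ 1 →
    W ((1 - t) • F + t • (F + H)) ≤ (1 - t) * W F + t * W (F + H)

/-- The inequality of quasiconvexity at all matrices, for all bounded open sets `Ω` and all
Lipschitz maps `ϑ` vanishing off `Ω`. -/
def Quasiconvex (W : Matrix (Fin 2) (Fin 2) ℝ → ℝ) : Prop :=
  ∀ F₀ : Matrix (Fin 2) (Fin 2) ℝ, ∀ Ω : Set (Fin 2 → ℝ),
    IsOpen Ω → Bornology.IsBounded Ω →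
    ∀ ϑ : (Fin 2 → ℝ) → (Fin 2 → ℝ), (∃ K, LipschitzWith K ϑ) →
      (∀ x, x ∉ Ω → ϑ x = 0) →
      W F₀ * (MeasureTheory.volume Ω).toReal ≤
        ∫ x in Ω, W (F₀ + LinearMap.toMatrix'
          ((fderiv ℝ ϑ x : (Fin 2 → ℝ) →L[ℝ] (Fin 2 → ℝ)) :
            (Fin 2 → ℝ) →ₗ[ℝ] (Fin 2 → ℝ)))

/-- `W(F) = P(F, det F)` for a convex function `P` with values in `ℝ ∪ {+∞}`. -/
def Polyconvex (W : Matrix (Fin 2) (Fin 2) ℝ → ℝ) : Prop :=
  ∃ P : Matrix (Fin 2) (Fin 2) ℝ × ℝ → EReal, (∀ z, P z ≠ ⊥) ∧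
    (∀ z w : Matrix (Fin 2) (Fin 2) ℝ × ℝ, ∀ a b : ℝ, 0 ≤ a → 0 ≤ b → a + b = 1 →
      P (a • z + b • w) ≤ (a : EReal) * P z + (b : EReal) * P w) ∧
    ∀ F, P (F, F.det) = (W F : EReal)

/-- Every rank-one convex function `W(F) = f(F₀₀) g(F₁₁) + a F₀₁² + b F₁₀² + c F₀₁ F₁₀ + L(F)` of a
real `2 × 2` matrix, with arbitrary functions `f, g`, numbers `a, b, c` and a linear form `L`, is
quasiconvex.  If `f, g` are nonnegative, convex and Lipschitz with constants `K₁, K₂` and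
`K₁ K₂ ≤ 2 κ`, then `f(F₀₀) g(F₁₁) + κ (F₀₁² + F₁₀²)` is rank-one convex.  The function
`F₀₀⁺ F₁₁⁺ + (F₀₁² + F₁₀²) / 2` is rank-one convex and not polyconvex. -/
theorem result :
    (∀ (f g : ℝ → ℝ) (a b c : ℝ) (L : Matrix (Fin 2) (Fin 2) ℝ →ₗ[ℝ] ℝ),
      RankOneConvex (fun F => f (F 0 0) * g (F 1 1)
        + (a * F 0 1 ^ 2 + b * F 1 0 ^ 2 + c * (F 0 1 * F 1 0)) + L F) →
      Quasiconvex (fun F => f (F 0 0) * g (F 1 1)
        + (a * F 0 1 ^ 2 + b * F 1 0 ^ 2 + c * (F 0 1 * F 1 0)) + L F)) ∧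
    (∀ (f g : ℝ → ℝ) (K₁ K₂ κ : ℝ), ConvexOn ℝ Set.univ f → ConvexOn ℝ Set.univ g →
      (∀ x, 0 ≤ f x) → (∀ x, 0 ≤ g x) → (∀ x y, |f x - f y| ≤ K₁ * |x - y|) →
      (∀ x y, |g x - g y| ≤ K₂ * |x - y|) → K₁ * K₂ ≤ 2 * κ →
      RankOneConvex (fun F => f (F 0 0) * g (F 1 1) + κ * (F 0 1 ^ 2 + F 1 0 ^ 2))) ∧
    RankOneConvex (fun F => max (F 0 0) 0 * max (F 1 1) 0 + 1 / 2 * (F 0 1 ^ 2 + F 1 0 ^ 2)) ∧
    ¬ Polyconvex (fun F => max (F 0 0) 0 * max (F 1 1) 0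
      + 1 / 2 * (F 0 1 ^ 2 + F 1 0 ^ 2)) := by
  have two : ∀ (f g : ℝ → ℝ) (K₁ K₂ κ : ℝ), ConvexOn ℝ Set.univ f → ConvexOn ℝ Set.univ g →
      (∀ x, 0 ≤ f x) → (∀ x, 0 ≤ g x) → (∀ x y, |f x - f y| ≤ K₁ * |x - y|) →
      (∀ x y, |g x - g y| ≤ K₂ * |x - y|) → K₁ * K₂ ≤ 2 * κ →
      RankOneConvex (fun F => f (F 0 0) * g (F 1 1) + κ * (F 0 1 ^ 2 + F 1 0 ^ 2)) := by
    intro f g K₁ K₂ κ hf hg f0 g0 h1 h2 h3
    have h := Pool.Agent.Run7.h167.MC.roc_lip hf hg f0 g0 h1 h2 h3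
    have e : (fun F : Matrix (Fin 2) (Fin 2) ℝ =>
        f (F 0 0) * g (F 1 1) + κ * (F 0 1 ^ 2 + F 1 0 ^ 2))
        = Pool.Agent.Run7.h167.MC.Wc f g κ κ 0 0 := by
      funext F
      simp only [Pool.Agent.Run7.h167.MC.Wc, LinearMap.zero_apply]
      ring
    rw [e]
    exact h
  refine ⟨fun f g a b c L h => Pool.Agent.Run7.h167.MC.quasi h, two, ?_, ?_⟩
  · have lip : ∀ x y : ℝ, |Pool.Agent.Run7.h167.MC.ps x - Pool.Agent.Run7.h167.MC.ps y|
        ≤ 1 * |x - y| := by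
      intro x y
      rw [one_mul]
      exact abs_max_sub_max_le_abs x y 0
    exact two Pool.Agent.Run7.h167.MC.ps Pool.Agent.Run7.h167.MC.ps 1 1 (1 / 2)
      Pool.Agent.Run7.h167.MC.ps_conv Pool.Agent.Run7.h167.MC.ps_conv
      (fun x => le_max_right _ _) (fun x => le_max_right _ _) lip lip (by norm_num)
  · exact Pool.Agent.Run7.h167.MC.not_poly

end Pool.Agent.Results.MP_515557_an.DiagonalProducts
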