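import Pool.Agent.Run7.h167.MC.Fin2

/-!
# Morrey's problem for functions of the eigenvalues of `(F + Fᵀ)/2`, and for functions of the
diagonal entries plus a quadratic form of the others, with a monotone mixed derivative

Let `λ₁ ≥ λ₂` be the eigenvalues of the symmetric part `(F + Fᵀ)/2` of the real `2 × 2` matrix `F`
(the linear strain), and let `ψ` be a symmetric function of class `C²` of two real variables which
is convex in each variable and whose mixed derivative `ψ₁₂` is nonpositive and nondecreasing in each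
variable (or nonincreasing in each variable).  Then `W(F) = ψ(λ₁, λ₂)` is quasiconvex.  Some of
these functions are not polyconvex.

Let `h` be a function of class `C²` which is convex in each variable and whose mixed derivative is
monotone in each variable (the direction may depend on the variable), and let `q(s, t) = a s² +
b t² + c s t` with `q(s, t) + h₁₂(x, y) s t ≥ 0` for all `s, t, x, y`.  Then
`W(F) = h(F₀₀, F₁₁) + q(F₀₁, F₁₀) + L(F)` is quasiconvex for every linear form `L`.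

Proof (files `Pool/Agent/Run7/h167/MC/`): the corners `(λ₁ - a)₊ (λ₂ - b)₊ + (F₀₁ - F₁₀)²/4` with
`a ≥ b` and `(F₀₀ - a)₊ (F₁₁ - b)₊ + (F₀₁ - F₁₀)²/4` are quasiconvex: they are suprema of translates
of a limit of Šverák's functions.  Given a matrix with eigenvalues (or diagonal entries) `x₀, y₀`,
let `u = ψ₁₂(·, y₀) + q`, `v = ψ₁₂(x₀, ·) + q`.  In the square `[-R, R]²` the function with the
mixed derivative `min(u(s), v(t))` is an integral of corners, and by monotonicity the difference of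
`W` and this function, after subtraction of `ψ(·, -R)`, `ψ(-R, ·)` and a multiple of the
determinant, is minimal at the given matrix.
-/

set_option autoImplicit false

open Matrix

namespace Pool.Agent.Results.MP_515557_an.LinearStrainMonotone

/-- The inequality of quasiconvexity at all matrices, for all bounded open sets `Ω` and all
Lipschitz maps `ϑ` vanishing off `Ω`. -/
def Quasiconvex (W : Matrix (Fin 2) (Fin 2) ℝ → ℝ) : Prop :=
  ∀ F₀ : Matrix (Fin 2) (Fin 2) ℝ, ∀ Ω : Set (Fin 2 → ℝ),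
    IsOpen Ω → Bornology.IsBounded Ω →
    ∀ ϑ : (Fin 2 → ℝ) → (Fin 2 → ℝ), (∃ K, LipschitzWith K ϑ) →
      (∀ x, x ∉ Ω → ϑ x = 0) →
      W F₀ * (MeasureTheory.volume Ω).toReal ≤
        ∫ x in Ω, W (F₀ + LinearMap.toMatrix'
          ((fderiv ℝ ϑ x : (Fin 2 → ℝ) →L[ℝ] (Fin 2 → ℝ)) :
            (Fin 2 → ℝ) →ₗ[ℝ] (Fin 2 → ℝ)))

/-- `W(F) = P(F, det F)` for a convex function `P` with values in `ℝ ∪ {+∞}`. -/
def Polyconvex (W : Matrix (Fin 2) (Fin 2) ℝ → ℝ) : Prop :=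
  ∃ P : Matrix (Fin 2) (Fin 2) ℝ × ℝ → EReal, (∀ z, P z ≠ ⊥) ∧
    (∀ z w : Matrix (Fin 2) (Fin 2) ℝ × ℝ, ∀ a b : ℝ, 0 ≤ a → 0 ≤ b → a + b = 1 →
      P (a • z + b • w) ≤ (a : EReal) * P z + (b : EReal) * P w) ∧
    ∀ F, P (F, F.det) = (W F : EReal)

/-- Half of the difference of the eigenvalues of `(F + Fᵀ)/2`. -/
noncomputable def rad (F : Matrix (Fin 2) (Fin 2) ℝ) : ℝ :=
  Real.sqrt (((F 0 0 - F 1 1) / 2) ^ 2 + ((F 0 1 + F 1 0) / 2) ^ 2)

/-- The larger eigenvalue of `(F + Fᵀ)/2`. -/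
noncomputable def eig₁ (F : Matrix (Fin 2) (Fin 2) ℝ) : ℝ := (F 0 0 + F 1 1) / 2 + rad F

/-- The smaller eigenvalue of `(F + Fᵀ)/2`. -/
noncomputable def eig₂ (F : Matrix (Fin 2) (Fin 2) ℝ) : ℝ := (F 0 0 + F 1 1) / 2 - rad F

/-- The mixed second derivative. -/
noncomputable def mixed (h : ℝ → ℝ → ℝ) (x y : ℝ) : ℝ :=
  deriv (fun s => deriv (fun t => h s t) y) x

/-- Twice continuously differentiable and convex in each variable. -/
def SmoothSepConvex (h : ℝ → ℝ → ℝ) : Prop :=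
  ContDiff ℝ 2 (fun z : ℝ × ℝ => h z.1 z.2) ∧
    (∀ y, ConvexOn ℝ Set.univ (fun x => h x y)) ∧ (∀ x, ConvexOn ℝ Set.univ (fun y => h x y))

/-- `ψ` is of class `C²`, symmetric, convex in each variable, and its mixed derivative is
nonpositive and nondecreasing in each variable, or nonpositive and nonincreasing in each
variable. -/
def StrainClass (ψ : ℝ → ℝ → ℝ) : Prop :=
  SmoothSepConvex ψ ∧ (∀ x y, ψ x y = ψ y x) ∧ (∀ x y, mixed ψ x y ≤ 0) ∧
    ((∀ y, Monotone (fun x => mixed ψ x y)) ∨ (∀ y, Antitone (fun x => mixed ψ x y)))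

/-- (1) `eig₁ F ≥ eig₂ F` are the eigenvalues of the symmetric part of `F`. (2) The functions
`ψ(eig₁ F, eig₂ F)`, `ψ` in `StrainClass`, are quasiconvex, and (3) one of them is not polyconvex.
(4) `h(F₀₀, F₁₁) + a F₀₁² + b F₁₀² + c F₀₁ F₁₀ + L(F)` is quasiconvex if `h` is of class `C²` and
convex in each variable, its mixed derivative is monotone in each variable, and
`a s² + b t² + (c + h₁₂(x, y)) s t ≥ 0` for all `x, y, s, t`. -/
theorem result :
    (∀ F : Matrix (Fin 2) (Fin 2) ℝ, eig₂ F ≤ eig₁ F ∧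
      eig₁ F + eig₂ F = ((1 / 2 : ℝ) • (F + Fᵀ)).trace ∧
      eig₁ F * eig₂ F = ((1 / 2 : ℝ) • (F + Fᵀ)).det) ∧
    (∀ ψ : ℝ → ℝ → ℝ, StrainClass ψ → Quasiconvex (fun F => ψ (eig₁ F) (eig₂ F))) ∧
    (∃ ψ : ℝ → ℝ → ℝ, StrainClass ψ ∧ ¬ Polyconvex (fun F => ψ (eig₁ F) (eig₂ F))) ∧
    (∀ (h : ℝ → ℝ → ℝ) (a b c : ℝ) (L : Matrix (Fin 2) (Fin 2) ℝ →ₗ[ℝ] ℝ), SmoothSepConvex h →
      ((∀ y, Monotone (fun x => mixed h x y)) ∨ (∀ y, Antitone (fun x => mixed h x y))) →
      ((∀ x, Monotone (fun y => mixed h x y)) ∨ (∀ x, Antitone (fun y => mixed h x y))) →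
      (∀ x y s t : ℝ, 0 ≤ a * s ^ 2 + b * t ^ 2 + (c + mixed h x y) * (s * t)) →
      Quasiconvex (fun F => h (F 0 0) (F 1 1)
        + (a * F 0 1 ^ 2 + b * F 1 0 ^ 2 + c * (F 0 1 * F 1 0)) + L F)) := by
  refine ⟨fun F => ⟨?_, ?_, ?_⟩, fun ψ hψ => ?_, ?_, fun h a b c L hh h1 h2 hB => ?_⟩
  · have : 0 ≤ rad F := Real.sqrt_nonneg _
    unfold eig₁ eig₂
    linarith
  · unfold eig₁ eig₂
    rw [Matrix.trace_fin_two]
    simp
    ring
  · have h1 : rad F ^ 2 = ((F 0 0 - F 1 1) / 2) ^ 2 + ((F 0 1 + F 1 0) / 2) ^ 2 :=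
      Real.sq_sqrt (by positivity)
    have h2 : eig₁ F * eig₂ F = ((F 0 0 + F 1 1) / 2) ^ 2 - rad F ^ 2 := by
      unfold eig₁ eig₂
      ring
    rw [h2, h1, Matrix.det_fin_two]
    simp
    ring
  · exact Pool.Agent.Run7.h167.MC.iso_M hψ.1.1 hψ.2.1 hψ.1.2.1 hψ.2.2.1 hψ.2.2.2
  · refine ⟨Pool.Agent.Run7.h167.MC.psi, ⟨⟨Pool.Agent.Run7.h167.MC.psi_smooth,
      Pool.Agent.Run7.h167.MC.psi_conv, fun x => ?_⟩, fun x y => ?_, fun x y => ?_,
      Or.inl fun y => ?_⟩, Pool.Agent.Run7.h167.MC.psi_not_poly⟩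
    · have e : (fun y => Pool.Agent.Run7.h167.MC.psi x y)
          = fun y => Pool.Agent.Run7.h167.MC.psi y x := by
        funext y
        unfold Pool.Agent.Run7.h167.MC.psi
        ring
      rw [e]
      exact Pool.Agent.Run7.h167.MC.psi_conv x
    · unfold Pool.Agent.Run7.h167.MC.psi
      ring
    · have e : mixed Pool.Agent.Run7.h167.MC.psi x y
          = Pool.Agent.Run7.h167.MC.gd x * Pool.Agent.Run7.h167.MC.gd y - 1 :=
        Pool.Agent.Run7.h167.MC.psi_mix x y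
      rw [e]
      have h1 := Pool.Agent.Run7.h167.MC.gd_pos x
      have h2 := Pool.Agent.Run7.h167.MC.gd_lt x
      have h3 := Pool.Agent.Run7.h167.MC.gd_lt y
      have h4 := Pool.Agent.Run7.h167.MC.gd_pos y
      nlinarith
    · intro x x' hxx
      have e : ∀ x, mixed Pool.Agent.Run7.h167.MC.psi x y
          = Pool.Agent.Run7.h167.MC.gd x * Pool.Agent.Run7.h167.MC.gd y - 1 :=
        fun x => Pool.Agent.Run7.h167.MC.psi_mix x y
      simp only [e]
      have h1 := Pool.Agent.Run7.h167.MC.gd_mono hxx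
      have h4 := Pool.Agent.Run7.h167.MC.gd_pos y
      nlinarith
  · exact Pool.Agent.Run7.h167.MC.diag_M hh.1 hh.2.1 hh.2.2 ⟨h1, h2⟩ hB

end Pool.Agent.Results.MP_515557_an.LinearStrainMonotone
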