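import Pool.Agent.Run7.h521.MQ.FinA

/-!
# Morrey's problem for `W(F) = h(αᵀ F) + Q(F) + L(F)` on real `2 × 2` matrices

`α` is a vector, `h` an arbitrary function of the vector `αᵀ F` (for instance of the first row of
`F`, the gradient of the first component of the map), `Q` an arbitrary quadratic form and `L` an
arbitrary linear form of the matrix.  Every rank-one convex function of this form is quasiconvex,
and there are rank-one convex functions of this form which are not polyconvex.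

Proof (files `Pool/Agent/Run7/h521/MQ/`): let `u = (φ, ψ)` and let `Q` be strictly convex in the
second row (a limit gives the general case).  The best `ψ` for given `φ` is a Fourier multiplier
of order zero of `φ`.  For this `ψ` the energy decreases along the flow `∂ₜ φ = a(∂) φ`, where the
symbol `a(k)` is the value of `Q` at the matrix with rows `0, k`: the dissipation is the integral of
a quadratic form, with coefficients depending on `∇φ`, of the Hessian `D²φ` only.  Rank-one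
convexity says that this form is nonnegative at `w ⊗ w`; by the S-lemma it becomes nonnegative
after the addition of `l(∇φ) det D²φ`, which has integral zero.
-/

set_option autoImplicit false

open Matrix

namespace Pool.Agent.Results.MP_515557_an.OneRowPlusQuadratic

/-- Convexity on the segments in rank-one directions. -/
def RankOneConvex (W : Matrix (Fin 2) (Fin 2) ℝ → ℝ) : Prop :=
  ∀ F H : Matrix (Fin 2) (Fin 2) ℝ, H.rank = 1 → ∀ t : ℝ, 0 ≤ t → t ≤ 1 →
    W ((1 - t) • F + t • (F + H)) ≤ (1 - t) * W F + t * W (F + H)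

/-- The inequality of quasiconvexity at all matrices, for all bounded open sets `Ω` and all
Lipschitz maps `ϑ` vanishing off `Ω`. -/
def Quasiconvex (W : Matrix (Fin 2) (Fin 2) ℝ → ℝ) : Prop :=
  ∀ F₀ : Matrix (Fin 2) (Fin 2) ℝ, ∀ Ω : Set (Fin 2 → ℝ),
    IsOpen Ω → Bornology.IsBounded Ω →
    ∀ ϑ : (Fin 2 → ℝ) → (Fin 2 → ℝ), (∃ K, LipschitzWith K ϑ) →
      (∀ x, x ∉ Ω → ϑ x = 0) →
      W F₀ * (MeasureTheory.volume Ω).toReal ≤
        ∫ x in Ω, W (F₀ + LinearMap.toMatrix'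
          ((fderiv ℝ ϑ x : (Fin 2 → ℝ) →L[ℝ] (Fin 2 → ℝ)) :
            (Fin 2 → ℝ) →ₗ[ℝ] (Fin 2 → ℝ)))

/-- `W(F) = P(F, det F)` for a convex function `P` with values in `ℝ ∪ {+∞}`. -/
def Polyconvex (W : Matrix (Fin 2) (Fin 2) ℝ → ℝ) : Prop :=
  ∃ P : Matrix (Fin 2) (Fin 2) ℝ × ℝ → EReal, (∀ z, P z ≠ ⊥) ∧
    (∀ z w : Matrix (Fin 2) (Fin 2) ℝ × ℝ, ∀ a b : ℝ, 0 ≤ a → 0 ≤ b → a + b = 1 →
      P (a • z + b • w) ≤ (a : EReal) * P z + (b : EReal) * P w) ∧
    ∀ F, P (F, F.det) = (W F : EReal)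

/-- the quadratic form of the example -/
noncomputable def Qex : QuadraticForm ℝ (Matrix (Fin 2) (Fin 2) ℝ) :=
  Pool.Agent.N555.MQ.QE.comp (Matrix.transposeLinearEquiv (Fin 2) (Fin 2) ℝ ℝ).toLinearMap

theorem ex_eq (F : Matrix (Fin 2) (Fin 2) ℝ) :
    (fun v : Fin 2 → ℝ => Pool.Agent.N555.MQ.kk (v 0) (v 1)) (![1, 0] ᵥ* F) + Qex F
      = Pool.Agent.N555.MQ.WE Fᵀ := by
  rw [← Pool.Agent.N555.MQ.WE_eq, Matrix.mulVec_transpose]
  rfl

/-- Every rank-one convex function `W(F) = h(αᵀ F) + Q(F) + L(F)` of a real `2 × 2` matrix, with an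
arbitrary function `h`, a quadratic form `Q` and a linear form `L`, is quasiconvex; some rank-one
convex functions `h(e₀ᵀ F) + Q(F)` are not polyconvex. -/
theorem result :
    (∀ (α : Fin 2 → ℝ) (h : (Fin 2 → ℝ) → ℝ)
      (Q : QuadraticForm ℝ (Matrix (Fin 2) (Fin 2) ℝ)) (L : Matrix (Fin 2) (Fin 2) ℝ →ₗ[ℝ] ℝ),
      RankOneConvex (fun F => h (α ᵥ* F) + Q F + L F) →
        Quasiconvex (fun F => h (α ᵥ* F) + Q F + L F)) ∧
    ∃ (h : (Fin 2 → ℝ) → ℝ) (Q : QuadraticForm ℝ (Matrix (Fin 2) (Fin 2) ℝ)),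
      RankOneConvex (fun F => h (![1, 0] ᵥ* F) + Q F) ∧
        ¬ Polyconvex (fun F => h (![1, 0] ᵥ* F) + Q F) := by
  refine ⟨fun α h Q L hroc => Run7.h521.MQ.fin_row α h Q L hroc,
    fun v => Pool.Agent.N555.MQ.kk (v 0) (v 1), Qex, ?_, ?_⟩
  · have e : (fun F : Matrix (Fin 2) (Fin 2) ℝ =>
        (fun v : Fin 2 → ℝ => Pool.Agent.N555.MQ.kk (v 0) (v 1)) (![1, 0] ᵥ* F) + Qex F)
        = fun F => Pool.Agent.N555.MQ.WE Fᵀ := funext ex_eq
    rw [e]
    intro F H hH t ht0 ht1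
    have hd : Hᵀ.det = 0 := by
      rw [Matrix.det_transpose]
      exact Pool.Agent.Helper188.Morrey.det_eq_zero_of_rank hH.le
    have h := Pool.Agent.N555.MQ.WE_roc Fᵀ Hᵀ hd t ht0 ht1
    simpa using h
  · have e : (fun F : Matrix (Fin 2) (Fin 2) ℝ =>
        (fun v : Fin 2 → ℝ => Pool.Agent.N555.MQ.kk (v 0) (v 1)) (![1, 0] ᵥ* F) + Qex F)
        = fun F => Pool.Agent.N555.MQ.WE Fᵀ := funext ex_eq
    rw [e]
    rintro ⟨P, hbot, hconv, hP⟩
    refine Pool.Agent.N555.MQ.WE_not_poly ⟨fun z => P (z.1ᵀ, z.2), fun z => hbot _,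
      fun z w a b ha hb hab => ?_, fun F => ?_⟩
    · have h := hconv (z.1ᵀ, z.2) (w.1ᵀ, w.2) a b ha hb hab
      simpa using h
    · have h := hP Fᵀ
      simp only at h
      rw [Matrix.det_transpose, Matrix.transpose_transpose] at h
      exact h

end Pool.Agent.Results.MP_515557_an.OneRowPlusQuadratic
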